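import Pool.Agent.R892.GC.Grow

/-!
# The recursion `a (n) = |a (n - 1) - gcd (a (n - 1), n (n + 2 m))|`: size of the zeros and primality

The primality in part (i) of the question follows from a crude lower bound for the size of the
zeros; part (ii) holds.
-/

set_option autoImplicit false

namespace Pool.Agent.Results.MP_9227d9_nt.ZeroGrowth

/-- `z < z'` are consecutive zeros of `a` (with `z ≥ 1`). -/
def Consecutive (a : ℕ → ℕ) (z z' : ℕ) : Prop :=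
  1 ≤ z ∧ z < z' ∧ a z = 0 ∧ a z' = 0 ∧ ∀ n, z < n → n < z' → a n ≠ 0

/-- Let `m ≥ 1`, `a 1 = 4 m ^ 2` and `a n = |a (n - 1) - gcd (a (n - 1), n (n + 2 m))|`. Then

* `a` has infinitely many zeros (part (ii) of the question);
* if `z < z'` are consecutive zeros then every prime factor `r` of `(z' + 1) (z' + 2 m + 1)`
  satisfies `7 z' ≤ 4 (z + 1) (z + 2 m + 1) + 7 z + 5 + 3 r`;
* if moreover `7 z' > 4 z ^ 2 + (8 m + 18) z + 11 m + 15` then `z' + 1` and `z' + 2 m + 1` are prime;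
* if for some `θ > 4 / 7` all but finitely many pairs of consecutive zeros satisfy
  `z' ≥ θ z ^ 2`, then part (i) of the question holds: for all large zeros `n` both `n + 1` and
  `n + 2 m + 1` are prime. -/
theorem result (m : ℕ) (hm : 1 ≤ m) (a : ℕ → ℕ) (h1 : a 1 = 4 * m ^ 2)
    (h : ∀ n : ℕ, 2 ≤ n →
        a n = Int.natAbs ((a (n - 1) : ℤ) - ((Nat.gcd (a (n - 1)) (n * (n + 2 * m)) : ℕ) : ℤ))) :
    Set.Infinite {n : ℕ | a n = 0} ∧
    (∀ z z', Consecutive a z z' →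
      ∀ r : ℕ, r.Prime → r ∣ (z' + 1) * (z' + 2 * m + 1) →
        7 * z' ≤ 4 * ((z + 1) * (z + 2 * m + 1)) + 7 * z + 5 + 3 * r) ∧
    (∀ z z', Consecutive a z z' → 4 * z ^ 2 + (8 * m + 18) * z + 11 * m + 15 < 7 * z' →
      (z' + 1).Prime ∧ (z' + 2 * m + 1).Prime) ∧
    ((∃ θ : ℝ, 4 / 7 < θ ∧ ∃ N : ℕ, ∀ z z', N ≤ z → Consecutive a z z' → θ * (z : ℝ) ^ 2 ≤ z') →
      ∃ N : ℕ, ∀ n : ℕ, N ≤ n → a n = 0 → (n + 1).Prime ∧ (n + 2 * m + 1).Prime) := by
  have hrec : ∀ n, 1 ≤ n → a (n + 1) = Int.natAbs ((a n : ℤ) -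
      ((Nat.gcd (a n) ((n + 1) * (n + 1 + 2 * m)) : ℕ) : ℤ)) := by
    intro n hn
    have := h (n + 1) (by omega)
    rwa [Nat.add_sub_cancel] at this
  have hmain := fun z z' (hc : Consecutive a z z') =>
    R892.GC.main_A m a hrec z z' hc.1 hc.2.2.1 hc.2.1 hc.2.2.2.1 hc.2.2.2.2
  refine ⟨?_, fun z z' hc => (hmain z z' hc).2.1, fun z z' hc => (hmain z z' hc).2.2, ?_⟩
  · rw [Set.infinite_iff_exists_gt]
    intro b
    obtain ⟨n, hn1, hn2⟩ := R892.GC.zeros_A m a hrec (b + 1)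
    exact ⟨n, hn2, by omega⟩
  · rintro ⟨θ, hθ, N, hN⟩
    obtain ⟨N', hN'⟩ := R892.GC.quad_large θ hθ (8 * m + 18) (11 * m + 15)
    obtain ⟨z0, hz0, hz0'⟩ := R892.GC.zeros_A m a hrec (N + N' + 1)
    refine ⟨z0 + 1, fun n hn hn0 => ?_⟩
    obtain ⟨z, k1, k2, k3, k4⟩ := R892.GC.prev_zero a z0 n hz0' (by omega)
    have hc : Consecutive a z n := ⟨by omega, k2, k3, hn0, k4⟩
    have k5 := hN' z n (by omega) (hN z n (by omega) hc)
    exact (hmain z n hc).2.2 (by omega)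

end Pool.Agent.Results.MP_9227d9_nt.ZeroGrowth
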